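import Pool.Agent.Y662.HT.AveCore
import Pool.Agent.Y58.HT.Stm

/-!
Block AVE of project HT.
-/

set_option autoImplicit false

universe u

namespace Pool.Agent.Y662.HT

open Pool.Agent.Y58.HT

theorem t_ave : S_AVE.{u} := by
  intro K E _ _ _ _ _ _ _ l hl l' hl'
  exact ave_core l hl l' hl'

end Pool.Agent.Y662.HT
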