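import Mathlib

/-!
# Embeddings of countable fields of characteristic zero with a prescribed algebraic value
-/

set_option autoImplicit false

universe u

namespace Pool.Agent.Y662.HT

open Cardinal Polynomial IntermediateField

theorem ave_core {K : Type u} {E : Type} [Field K] [CharZero K] [Countable K] [Field E]
    [CharZero E] [IsAlgClosed E] [Uncountable E] (l : K) (hl : IsAlgebraic ℚ l) (l' : E)
    (hl' : Polynomial.aeval l' (minpoly ℚ l) = 0) : ∃ ψ : K →+* E, ψ l = l' := by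
  have hint : IsIntegral ℚ l := hl.isIntegral
  have hmem : l' ∈ (minpoly ℚ l).aroots E :=
    Polynomial.mem_aroots.mpr ⟨minpoly.ne_zero hint, hl'⟩
  let σ : ℚ⟮l⟯ →ₐ[ℚ] E := (algHomAdjoinIntegralEquiv ℚ hint).symm ⟨l', hmem⟩
  have hσ : σ (AdjoinSimple.gen ℚ l) = l' :=
    algHomAdjoinIntegralEquiv_symm_apply_gen ℚ hint ⟨l', hmem⟩
  letI : Algebra ℚ⟮l⟯ E := σ.toRingHom.toAlgebra
  have hF1 : Countable ℚ⟮l⟯ := Subtype.countable
  obtain ⟨ι, x, hx⟩ := exists_isTranscendenceBasis' ℚ⟮l⟯ K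
  obtain ⟨κ, y, hy⟩ := exists_isTranscendenceBasis' ℚ⟮l⟯ E
  have hι : Countable ι := hx.1.injective.countable
  have hκ : Uncountable κ := by
    have h := IsAlgClosed.cardinal_eq_cardinal_transcendence_basis_of_aleph0_lt y hy
      (Cardinal.mk_le_aleph0_iff.mpr hF1) (Cardinal.aleph0_lt_mk_iff.mpr inferInstance)
    rw [← Cardinal.aleph0_lt_mk_iff]
    have h2 : ℵ₀ < #E := Cardinal.aleph0_lt_mk_iff.mpr inferInstance
    simpa using (by simpa using h2 : ℵ₀ < Cardinal.lift.{_} #E).trans_eq h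
  obtain ⟨f⟩ : Nonempty (ι ↪ κ) := by
    rw [← Cardinal.lift_mk_le']
    have h1 : #ι ≤ ℵ₀ := Cardinal.mk_le_aleph0_iff.mpr hι
    have h2 : ℵ₀ < #κ := Cardinal.aleph0_lt_mk_iff.mpr hκ
    calc Cardinal.lift #ι ≤ ℵ₀ := by simpa using h1
      _ ≤ Cardinal.lift #κ := by simpa using h2.le
  have hyf : AlgebraicIndependent ℚ⟮l⟯ (y ∘ f) := hy.1.comp f f.injective
  let g : Algebra.adjoin ℚ⟮l⟯ (Set.range x) →ₐ[ℚ⟮l⟯] E :=
    (MvPolynomial.aeval (y ∘ f)).comp hx.1.aevalEquiv.symm.toAlgHom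
  have hyf' : Function.Injective
      (MvPolynomial.aeval (y ∘ f) : MvPolynomial ι ℚ⟮l⟯ →ₐ[ℚ⟮l⟯] E) := hyf
  have hg : Function.Injective g := by
    intro a b hab
    have h1 : (MvPolynomial.aeval (y ∘ f) : MvPolynomial ι ℚ⟮l⟯ →ₐ[ℚ⟮l⟯] E)
        (hx.1.aevalEquiv.symm a) = (MvPolynomial.aeval (y ∘ f) : MvPolynomial ι ℚ⟮l⟯ →ₐ[ℚ⟮l⟯] E)
        (hx.1.aevalEquiv.symm b) := hab
    exact hx.1.aevalEquiv.symm.injective (hyf' h1)
  letI : Algebra (Algebra.adjoin ℚ⟮l⟯ (Set.range x)) E := g.toRingHom.toAlgebra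
  haveI : Algebra.IsAlgebraic (Algebra.adjoin ℚ⟮l⟯ (Set.range x)) K := hx.isAlgebraic
  haveI : FaithfulSMul (Algebra.adjoin ℚ⟮l⟯ (Set.range x)) E :=
    (faithfulSMul_iff_algebraMap_injective _ _).mpr hg
  let ψ : K →ₐ[Algebra.adjoin ℚ⟮l⟯ (Set.range x)] E := IsAlgClosed.lift
  refine ⟨ψ.toRingHom, ?_⟩
  have e1 : l = algebraMap (Algebra.adjoin ℚ⟮l⟯ (Set.range x)) K
      (algebraMap ℚ⟮l⟯ _ (AdjoinSimple.gen ℚ l)) := by
    rw [← IsScalarTower.algebraMap_apply]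
    rfl
  have e2 : ψ (algebraMap (Algebra.adjoin ℚ⟮l⟯ (Set.range x)) K
      (algebraMap ℚ⟮l⟯ _ (AdjoinSimple.gen ℚ l))) = g (algebraMap ℚ⟮l⟯ _ (AdjoinSimple.gen ℚ l)) :=
    ψ.commutes _
  have e3 : g (algebraMap ℚ⟮l⟯ _ (AdjoinSimple.gen ℚ l)) = σ (AdjoinSimple.gen ℚ l) :=
    g.commutes _
  exact (congrArg ψ e1).trans (e2.trans (e3.trans hσ))

end Pool.Agent.Y662.HT
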